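import Mathlib
import Pool.Agent.W_MP_bec7e1_h80.Grp

/-!
# The universal property of `GG p`
-/

namespace OddGp

variable {p : ℕ} [Fact p.Prime]

namespace GGHom

variable {H : Type*} [Group H]

theorem pow_eq_of_cast {g : H} (hg : g ^ p = 1) {m n : ℕ} (h : (m : ZMod p) = n) :
    g ^ m = g ^ n := by
  have h1 : m ≡ n [MOD p] := (ZMod.natCast_eq_natCast_iff _ _ _).1 h
  have key : ∀ m : ℕ, g ^ m = g ^ (m % p) := by
    intro m
    conv_lhs => rw [← Nat.div_add_mod m p, pow_add, pow_mul, hg, one_pow, one_mul]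
  rw [key m, key n, h1]

theorem Y_pow_X {X Y Z : H} (hZX : Commute Z X) (hZY : Commute Z Y) (hYX : Y * X = Z * (X * Y))
    (m n : ℕ) : Y ^ m * X ^ n = Z ^ (m * n) * (X ^ n * Y ^ m) := by
  have h1 : ∀ m : ℕ, Y ^ m * X = Z ^ m * (X * Y ^ m) := by
    intro m
    induction m with
    | zero => simp
    | succ m ih =>
      calc Y ^ (m + 1) * X = Y * (Y ^ m * X) := by rw [pow_succ', mul_assoc]
        _ = Y * (Z ^ m * (X * Y ^ m)) := by rw [ih]
        _ = (Y * Z ^ m) * (X * Y ^ m) := by group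
        _ = (Z ^ m * Y) * (X * Y ^ m) := by rw [(hZY.pow_left m).eq]
        _ = Z ^ m * (Y * X) * Y ^ m := by group
        _ = Z ^ m * (Z * (X * Y)) * Y ^ m := by rw [hYX]
        _ = Z ^ (m + 1) * (X * Y ^ (m + 1)) := by rw [pow_succ, pow_succ']; group
  induction n with
  | zero => simp
  | succ n ih =>
    calc Y ^ m * X ^ (n + 1) = (Y ^ m * X ^ n) * X := by rw [pow_succ, mul_assoc]
      _ = Z ^ (m * n) * (X ^ n * Y ^ m) * X := by rw [ih]
      _ = Z ^ (m * n) * X ^ n * (Y ^ m * X) := by group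
      _ = Z ^ (m * n) * X ^ n * (Z ^ m * (X * Y ^ m)) := by rw [h1]
      _ = Z ^ (m * n) * (X ^ n * Z ^ m) * (X * Y ^ m) := by group
      _ = Z ^ (m * n) * (Z ^ m * X ^ n) * (X * Y ^ m) := by
          rw [((hZX.pow_left m).pow_right n).eq]
      _ = (Z ^ (m * n) * Z ^ m) * (X ^ n * X * Y ^ m) := by group
      _ = Z ^ (m * (n + 1)) * (X ^ (n + 1) * Y ^ m) := by
          rw [← pow_add, ← pow_succ, mul_add, mul_one]

/-- the map `(k, i, j) ↦ Z ^ k X ^ i Y ^ j` -/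
def fn (X Y Z : H) (a : GG p) : H := Z ^ a.k.val * (X ^ a.i.val * Y ^ a.j.val)

theorem fn_mul {X Y Z : H} (hZX : Commute Z X) (hZY : Commute Z Y) (hYX : Y * X = Z * (X * Y))
    (hXp : X ^ p = Z) (hYp : Y ^ p = 1) (hZp : Z ^ p = 1) (a b : GG p) :
    fn X Y Z (a * b) = fn X Y Z a * fn X Y Z b := by
  have e1 : X ^ a.i.val * X ^ b.i.val = Z ^ cy a.i b.i * X ^ (a.i + b.i).val := by
    rw [← pow_add, ← cy_add_val, pow_add, pow_mul, hXp]
  have e2 : Y ^ a.j.val * Y ^ b.j.val = Y ^ (a.j + b.j).val := by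
    rw [← pow_add]
    apply pow_eq_of_cast hYp
    push_cast
    simp
  have e3 : Z ^ (a.k.val + b.k.val + (a.j.val * b.i.val + cy a.i b.i)) = Z ^ (a * b).k.val := by
    apply pow_eq_of_cast hZp
    push_cast
    simp [ff]
  calc fn X Y Z (a * b) = Z ^ (a * b).k.val * (X ^ (a.i + b.i).val * Y ^ (a.j + b.j).val) := rfl
    _ = Z ^ (a.k.val + b.k.val + (a.j.val * b.i.val + cy a.i b.i)) *
        (X ^ (a.i + b.i).val * Y ^ (a.j + b.j).val) := by rw [e3]
    _ = Z ^ a.k.val * (Z ^ b.k.val * (Z ^ (a.j.val * b.i.val) *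
        ((Z ^ cy a.i b.i * X ^ (a.i + b.i).val) * Y ^ (a.j + b.j).val))) := by
        rw [pow_add, pow_add, pow_add]; group
    _ = Z ^ a.k.val * (Z ^ b.k.val * (Z ^ (a.j.val * b.i.val) *
        ((X ^ a.i.val * X ^ b.i.val) * (Y ^ a.j.val * Y ^ b.j.val)))) := by rw [e1, e2]
    _ = Z ^ a.k.val * (Z ^ b.k.val * ((Z ^ (a.j.val * b.i.val) * X ^ a.i.val) * (X ^ b.i.val *
        (Y ^ a.j.val * Y ^ b.j.val)))) := by group
    _ = Z ^ a.k.val * (Z ^ b.k.val * ((X ^ a.i.val * Z ^ (a.j.val * b.i.val)) * (X ^ b.i.val *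
        (Y ^ a.j.val * Y ^ b.j.val)))) := by
        rw [((hZX.pow_left (a.j.val * b.i.val)).pow_right a.i.val).eq]
    _ = Z ^ a.k.val * (Z ^ b.k.val * (X ^ a.i.val * (Z ^ (a.j.val * b.i.val) * (X ^ b.i.val *
        Y ^ a.j.val)) * Y ^ b.j.val)) := by group
    _ = Z ^ a.k.val * (Z ^ b.k.val * (X ^ a.i.val * (Y ^ a.j.val * X ^ b.i.val) *
        Y ^ b.j.val)) := by rw [← Y_pow_X hZX hZY hYX]
    _ = Z ^ a.k.val * ((Z ^ b.k.val * (X ^ a.i.val * Y ^ a.j.val)) * (X ^ b.i.val *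
        Y ^ b.j.val)) := by group
    _ = Z ^ a.k.val * (((X ^ a.i.val * Y ^ a.j.val) * Z ^ b.k.val) * (X ^ b.i.val *
        Y ^ b.j.val)) := by
        have h : Commute (Z ^ b.k.val) (X ^ a.i.val * Y ^ a.j.val) :=
          ((hZX.pow_left _).pow_right _).mul_right ((hZY.pow_left _).pow_right _)
        rw [h.eq]
    _ = fn X Y Z a * fn X Y Z b := by rw [fn, fn]; group

/-- The homomorphism `GG p → H` given by elements satisfying the relations. -/
def hom {X Y Z : H} (hZX : Commute Z X) (hZY : Commute Z Y) (hYX : Y * X = Z * (X * Y))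
    (hXp : X ^ p = Z) (hYp : Y ^ p = 1) (hZp : Z ^ p = 1) : GG p →* H where
  toFun := fn X Y Z
  map_one' := by simp [fn]
  map_mul' := fn_mul hZX hZY hYX hXp hYp hZp

theorem fn_x {X Y Z : H} : fn X Y Z (GG.x : GG p) = X := by
  have h2 : (1 : ZMod p).val = 1 := by
    haveI : Fact (1 < p) := ⟨(Fact.out : p.Prime).one_lt⟩
    exact ZMod.val_one p
  simp [fn, h2]

theorem fn_y {X Y Z : H} : fn X Y Z (GG.y : GG p) = Y := by
  have h2 : (1 : ZMod p).val = 1 := by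
    haveI : Fact (1 < p) := ⟨(Fact.out : p.Prime).one_lt⟩
    exact ZMod.val_one p
  simp [fn, h2]

end GGHom

end OddGp
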